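import Pool.Agent.helper29.PQ.Spec
import Pool.Agent.helper18.TG.WT1
import Pool.Agent.helper61.TG.WT6

/-!
# MP_56fc12_nt, row pq:C4: the second moment of the Ramanujan model
-/

namespace Pool.Agent.helper29.PQ

open Finset Pool.Agent.helper35.LinPrimes Pool.Agent.helper74.TG

/-- The coefficients of the sum over `a ∈ T`. -/
private noncomputable def C4_cc (m c : ℕ) (T : Finset ℕ) (r : Σ _ : ℕ, ℕ) : ℂ :=
  if r.1 = 1 then 0 else Hc m c r.2 r.1 * ∑ a ∈ T, ee (-((r.2 : ℝ) * a / r.1))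

private theorem C4_mem_Fa {Q : ℕ} {r : Σ _ : ℕ, ℕ} :
    r ∈ Fa Q ↔ (0 < r.1 ∧ r.1 ≤ Q) ∧ r.2 < r.1 ∧ Nat.Coprime r.2 r.1 := by
  rw [Fa, mem_sigma, mem_Ioc, mem_filter, mem_range]

private theorem C4_gm_sub (m c Q x : ℕ) (hm : 0 < m) (hQ : 1 ≤ Q) :
    gm m c Q x - 1 = ∑ r ∈ Fa Q,
      if r.1 = 1 then (0 : ℂ) else Hc m c r.2 r.1 * ee ((r.2 : ℝ) * x / r.1) := by
  have h10 : (⟨1, 0⟩ : Σ _ : ℕ, ℕ) ∈ Fa Q := by
    rw [C4_mem_Fa]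
    exact ⟨⟨Nat.one_pos, hQ⟩, Nat.one_pos, by simp⟩
  rw [gm, ← Finset.add_sum_erase _ _ h10, ← Finset.add_sum_erase _ _ h10]
  have h1 : Hc m c (⟨1, 0⟩ : Σ _ : ℕ, ℕ).2 (⟨1, 0⟩ : Σ _ : ℕ, ℕ).1 *
      ee ((((⟨1, 0⟩ : Σ _ : ℕ, ℕ).2 : ℕ) : ℝ) * x / (((⟨1, 0⟩ : Σ _ : ℕ, ℕ).1 : ℕ) : ℝ)) = 1 := by
    simp [Hc_one m c hm, h61.ee_zero]
  rw [h1, if_pos rfl, zero_add, add_sub_cancel_left]
  refine Finset.sum_congr rfl fun r hr => ?_
  rw [mem_erase, C4_mem_Fa] at hr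
  rw [if_neg]
  intro h
  apply hr.1
  obtain ⟨q, a⟩ := r
  simp only at h hr
  subst h
  have : a = 0 := by omega
  subst this
  rfl

private theorem C4_sum_eq (m c Q N : ℕ) (T : Finset ℕ) (hm : 0 < m) (hQ : 1 ≤ Q)
    (hT : ∀ a ∈ T, a ≤ N) :
    ∑ a ∈ T, (gm m c Q (N - a) - 1) =
      ∑ r ∈ Fa Q, C4_cc m c T r * ee ((N : ℝ) * ((r.2 : ℝ) / r.1)) := by
  have h1 : ∀ a ∈ T, gm m c Q (N - a) - 1 = ∑ r ∈ Fa Q,
      if r.1 = 1 then (0 : ℂ) else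
        Hc m c r.2 r.1 * (ee (-((r.2 : ℝ) * a / r.1)) * ee ((N : ℝ) * ((r.2 : ℝ) / r.1))) := by
    intro a ha
    rw [C4_gm_sub m c Q (N - a) hm hQ]
    refine Finset.sum_congr rfl fun r _ => ?_
    rw [← h61.ee_add, Nat.cast_sub (hT a ha)]
    congr 3
    ring
  rw [Finset.sum_congr rfl h1, Finset.sum_comm]
  refine Finset.sum_congr rfl fun r _ => ?_
  rw [C4_cc]
  split_ifs with h
  · simp
  · rw [mul_assoc, Finset.sum_mul, Finset.mul_sum]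

private theorem C4_cc_norm (m c : ℕ) (T : Finset ℕ) (q a : ℕ) (hm : 0 < m) (hq : 0 < q)
    (ha : Nat.Coprime a q) :
    ‖C4_cc m c T ⟨q, a⟩‖ ^ 2 ≤
      (1 / (Nat.totient q : ℝ)) ^ 2 * ‖∑ t ∈ T, ee ((a : ℝ) * t / q)‖ ^ 2 := by
  rw [C4_cc]
  split_ifs with h
  · rw [norm_zero, zero_pow two_ne_zero]
    positivity
  · rw [norm_mul, mul_pow]
    have h1 : ∑ t ∈ T, ee (-((a : ℝ) * t / q)) =
        (starRingEnd ℂ) (∑ t ∈ T, ee ((a : ℝ) * t / q)) := by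
      rw [map_sum]
      exact Finset.sum_congr rfl fun t _ => h61.ee_neg _
    have h2 : ‖∑ t ∈ T, ee (-((a : ℝ) * t / q))‖ = ‖∑ t ∈ T, ee ((a : ℝ) * t / q)‖ := by
      rw [h1, RCLike.norm_conj]
    simp only
    rw [h2]
    exact mul_le_mul_of_nonneg_right
      (pow_le_pow_left₀ (norm_nonneg _) (Hc_bound m c a q hm hq ha) 2) (by positivity)

private theorem C4_cc_zero (m c : ℕ) (T : Finset ℕ) (q a : ℕ) (hm : 0 < m) (hq : 0 < q)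
    (ha : Nat.Coprime a q) (h : q = 1 ∨ ¬ Nat.Coprime q m ∨ ¬ Squarefree q) :
    C4_cc m c T ⟨q, a⟩ = 0 := by
  rw [C4_cc]
  split_ifs with h1
  · rfl
  · have h2 : ¬ Nat.Coprime q m ∨ ¬ Squarefree q := h.resolve_left h1
    simp only
    rw [Hc_zero m c a q hm hq ha h2, zero_mul]

private theorem C4_inner (h3 : C3_stmt) (m c Q : ℕ) (T : Finset ℕ) (hm : 0 < m) :
    ∑ r ∈ Fa Q, ‖C4_cc m c T r‖ ^ 2
      ≤ ∑ q ∈ sq m Q, (q : ℝ) / (Nat.totient q : ℝ) ^ 2 * (pc T q : ℝ) := by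
  rw [Fa, Finset.sum_sigma]
  have hsub : sq m Q ⊆ Ioc 0 Q := by
    intro q hq
    rw [sq, mem_filter, mem_Ioc] at hq
    rw [mem_Ioc]
    omega
  rw [← Finset.sum_subset hsub]
  · refine Finset.sum_le_sum fun q hq => ?_
    rw [sq, mem_filter, mem_Ioc] at hq
    have hq0 : 0 < q := by omega
    have hφ : (0 : ℝ) < (Nat.totient q : ℝ) := by
      have := Nat.totient_pos.2 hq0
      positivity
    calc ∑ a ∈ (range q).filter (fun a => Nat.Coprime a q), ‖C4_cc m c T ⟨q, a⟩‖ ^ 2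
        ≤ ∑ a ∈ (range q).filter (fun a => Nat.Coprime a q),
            (1 / (Nat.totient q : ℝ)) ^ 2 * ‖∑ t ∈ T, ee ((a : ℝ) * t / q)‖ ^ 2 :=
          Finset.sum_le_sum fun a ha =>
            C4_cc_norm m c T q a hm hq0 (mem_filter.1 ha).2
      _ ≤ ∑ a ∈ range q,
            (1 / (Nat.totient q : ℝ)) ^ 2 * ‖∑ t ∈ T, ee ((a : ℝ) * t / q)‖ ^ 2 :=
          Finset.sum_le_sum_of_subset_of_nonneg (filter_subset _ _) fun a _ _ => by positivity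
      _ = (1 / (Nat.totient q : ℝ)) ^ 2 * (q * (pc T q : ℝ)) := by
          rw [← Finset.mul_sum, h3 q T hq0]
      _ = (q : ℝ) / (Nat.totient q : ℝ) ^ 2 * (pc T q : ℝ) := by
          rw [one_div, inv_pow]
          field_simp
  · intro q hq hq'
    rw [mem_Ioc] at hq
    refine Finset.sum_eq_zero fun a ha => ?_
    have ha' := (mem_filter.1 ha).2
    rw [C4_cc_zero m c T q a hm hq.1 ha', norm_zero, zero_pow two_ne_zero]
    by_contra hcon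
    push Not at hcon
    apply hq'
    rw [sq, mem_filter, mem_Ioc]
    exact ⟨⟨by omega, hq.2⟩, hcon.2.2, hcon.2.1⟩

/-- pq:C4.  Second moment of the model. -/
theorem C4 (h2 : C2_stmt) (h3 : C3_stmt) : C4_stmt := by
  intro m c Q U N₁ T hm hQ hU hQU hT
  have h1 : ∑ N ∈ Ioc N₁ U, ‖∑ a ∈ T, (gm m c Q (N - a) - 1)‖ ^ 2 =
      ∑ N ∈ Ioc N₁ U,
        ‖∑ r ∈ Fa Q, C4_cc m c T r * ee ((N : ℝ) * ((r.2 : ℝ) / r.1))‖ ^ 2 := by
    refine Finset.sum_congr rfl fun N hN => ?_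
    rw [mem_Ioc] at hN
    rw [C4_sum_eq m c Q N T hm hQ fun a ha => (hT a ha).trans hN.1.le]
  rw [h1]
  refine (h2 Q U N₁ (C4_cc m c T) hQ hU hQU).trans ?_
  exact mul_le_mul_of_nonneg_left (C4_inner h3 m c Q T hm) (by positivity)

end Pool.Agent.helper29.PQ
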