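import Pool.Agent.helper7.PQ.Spec

set_option autoImplicit false

open Finset PowerSeries

noncomputable section

namespace Pool.Agent.PQ

open Pool.Agent.EP

private theorem OSD_mod (κ : ℕ) (h : 1 ≤ κ) : (2 * 4 ^ κ) % 24 = 8 := by
  induction κ, h using Nat.le_induction with
  | base => norm_num
  | succ κ _ ih =>
    rw [pow_succ]
    omega

theorem OSD (hLQ : LQ_stmt) (hL7 : L7_stmt) (hVCL : VCL_stmt) : OSD_stmt := by
  intro κ s P P' hκ hs hcard hP hP7 hP' hP7' hnot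
  have hB : (2 : ℕ) ^ (2 * κ + 1) = 2 * 4 ^ κ := by
    rw [pow_succ, pow_mul, mul_comm]
    norm_num
  have hmod := OSD_mod κ (by omega)
  have h32 : 32 ≤ 2 * 4 ^ κ := by
    have : 4 ^ 2 ≤ 4 ^ κ := Nat.pow_le_pow_right (by norm_num) hκ
    omega
  have hins : ∀ q ∈ insert P' s, q.Prime ∧ q % 24 = 7 := by
    intro q hq
    rw [mem_insert] at hq
    rcases hq with rfl | hq
    · exact ⟨hP', hP7'⟩
    · exact hs q hq
  have hcard' : #(insert P' s) + 2 = 2 ^ κ := by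
    rw [card_insert_of_notMem hnot]
    omega
  obtain ⟨q1, q2⟩ := hLQ κ (insert P' s) (by omega) hins hcard'
  have hprod : ((∏ q ∈ insert P' s, q : ℕ) : ℤ) = (((∏ q ∈ s, q) * P' : ℕ) : ℤ) := by
    rw [prod_insert hnot, mul_comm]
  rw [hprod] at q2
  have q1' : ∀ i : ℕ, i + 7 < 2 * 4 ^ κ → i.Coprime 6 →
      (vvx ^ i).coeff (((∏ q ∈ s, q) * P' : ℕ) : ℤ) = 0 := by
    intro i hi hc
    rw [← hprod]
    exact q1 i hi hc
  unfold RB
  rw [hB]
  rw [Finset.sum_eq_single 7]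
  · rw [hL7 P hP hP7, q2, one_mul]
  · intro i hi hi7
    rw [mem_Ico] at hi
    by_cases h1 : (vvx ^ i).coeff (P : ℤ) = 0
    · rw [h1, zero_mul]
    · obtain ⟨h2, h3⟩ := hVCL i P h1
      have hi24 : i % 24 = 7 := by omega
      have h4 : 7 < i := by omega
      rw [q1' (2 * 4 ^ κ - i) (by omega) ?_, mul_zero]
      have h5 : (2 * 4 ^ κ - i) % 24 = 1 := by omega
      rw [Nat.coprime_iff_gcd_eq_one]
      have h6 : (2 * 4 ^ κ - i) % 6 = 1 := by omega
      rw [Nat.gcd_comm, Nat.gcd_rec, h6]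
      norm_num
  · intro h
    exfalso
    apply h
    rw [mem_Ico]
    omega

end Pool.Agent.PQ
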